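import Mathlib

namespace Pool.Agent.Results.MP_1ea425_al.SelfSquare

/-- Additive endomorphisms of the group of integer sequences. -/
abbrev T : Type := Module.End ℤ (ℕ → ℤ)

abbrev X : Type := ℕ → Bool

abbrev A : Type := X → T

def s0 : T where
  toFun f := fun m => if m % 2 = 0 then f (m / 2) else 0
  map_add' f g := by
    funext m
    by_cases h : m % 2 = 0 <;> simp [h]
  map_smul' c f := by
    funext m
    by_cases h : m % 2 = 0 <;> simp [h]

def s1 : T where
  toFun f := fun m => if m % 2 = 1 then f (m / 2) else 0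
  map_add' f g := by
    funext m
    by_cases h : m % 2 = 1 <;> simp [h]
  map_smul' c f := by
    funext m
    by_cases h : m % 2 = 1 <;> simp [h]

def t0 : T where
  toFun f := fun n => f (2 * n)
  map_add' f g := by
    funext m
    simp
  map_smul' c f := by
    funext m
    simp

def t1 : T where
  toFun f := fun n => f (2 * n + 1)
  map_add' f g := by
    funext m
    simp
  map_smul' c f := by
    funext m
    simp

def k (n : ℕ) : ℕ := padicValNat 2 (n + 1)

lemma k_even (n : ℕ) : k (2 * n) = 0 := by
  unfold k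
  apply padicValNat.eq_zero_of_not_dvd
  omega

lemma k_odd (n : ℕ) : k (2 * n + 1) = k n + 1 := by
  unfold k
  have h : 2 * n + 1 + 1 = 2 * (n + 1) := by ring
  have : Fact (Nat.Prime 2) := ⟨Nat.prime_two⟩
  rw [h, padicValNat.mul (by norm_num) (by omega), padicValNat.self (by norm_num)]
  ring

def g : A := fun x =>
  { toFun := fun f => fun n => if x (k n) = true then f n else 0
    map_add' := by
      intro f g
      funext n
      by_cases h : x (k n) = true <;> simp [h]
    map_smul' := by
      intro c f
      funext n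
      by_cases h : x (k n) = true <;> simp [h] }

def cst (t : T) : A := fun _ => t

def e : A := fun x => if x 0 = true then 1 else 0

def cons (b : Bool) (x : X) : X := fun n => Nat.casesOn n b (fun m => x m)

def shift (x : X) : X := fun n => x (n + 1)

lemma shift_cons (b : Bool) (x : X) : shift (cons b x) = x := rfl

lemma cons_shift (x : X) : cons (x 0) (shift x) = x := by
  funext n
  cases n <;> rfl

def pull (u : X → X) : A →+* A where
  toFun f := fun x => f (u x)
  map_one' := rfl
  map_mul' _ _ := rfl
  map_zero' := rfl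
  map_add' _ _ := rfl

def gens : Set A := {cst s0, cst s1, cst t0, cst t1, g}

def R : Subring A := Subring.closure gens

lemma cst_s0_mem : cst s0 ∈ R := Subring.subset_closure (by simp [gens])
lemma cst_s1_mem : cst s1 ∈ R := Subring.subset_closure (by simp [gens])
lemma cst_t0_mem : cst t0 ∈ R := Subring.subset_closure (by simp [gens])
lemma cst_t1_mem : cst t1 ∈ R := Subring.subset_closure (by simp [gens])
lemma g_mem : g ∈ R := Subring.subset_closure (by simp [gens])

lemma e_eq : e = cst t0 * g * cst s0 := by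
  funext x
  apply LinearMap.ext
  intro f
  funext n
  change (e x f) n = ((t0 * g x * s0 : T) f) n
  simp only [Module.End.mul_apply]
  simp only [e, t0, g, s0, LinearMap.coe_mk, AddHom.coe_mk]
  rw [k_even]
  by_cases h : x 0 = true
  · simp [h]
  · simp [h]

lemma g_shift : pull shift g = cst t1 * g * cst s1 := by
  funext x
  apply LinearMap.ext
  intro f
  funext n
  change (g (shift x) f) n = ((t1 * g x * s1 : T) f) n
  simp only [Module.End.mul_apply]
  simp only [t1, g, s1, LinearMap.coe_mk, AddHom.coe_mk]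
  rw [k_odd]
  have h2 : (2 * n + 1) / 2 = n := by omega
  have h3 : (2 * n + 1) % 2 = 1 := by omega
  simp [shift, h2, h3] <;> rfl

lemma g_cons_false : pull (cons false) g = cst s1 * g * cst t1 := by
  funext x
  apply LinearMap.ext
  intro f
  funext m
  change (g (cons false x) f) m = ((s1 * g x * t1 : T) f) m
  simp only [Module.End.mul_apply]
  simp only [t1, g, s1, LinearMap.coe_mk, AddHom.coe_mk]
  rcases Nat.even_or_odd' m with ⟨n, hn | hn⟩
  · subst hn
    rw [k_even]
    simp [cons]
  · subst hn
    rw [k_odd]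
    have h2 : (2 * n + 1) / 2 = n := by omega
    have h3 : (2 * n + 1) % 2 = 1 := by omega
    simp [cons, h2, h3] <;> rfl

lemma g_cons_true : pull (cons true) g = cst s0 * cst t0 + cst s1 * g * cst t1 := by
  funext x
  apply LinearMap.ext
  intro f
  funext m
  change (g (cons true x) f) m = ((s0 * t0 + s1 * g x * t1 : T) f) m
  simp only [Module.End.mul_apply, LinearMap.add_apply, Pi.add_apply]
  simp only [t0, t1, g, s0, s1, LinearMap.coe_mk, AddHom.coe_mk]
  rcases Nat.even_or_odd' m with ⟨n, hn | hn⟩
  · subst hn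
    rw [k_even]
    simp [cons]
  · subst hn
    rw [k_odd]
    have h2 : (2 * n + 1) / 2 = n := by omega
    have h3 : (2 * n + 1) % 2 = 1 := by omega
    simp [cons, h2, h3] <;> rfl

lemma e_mem : e ∈ R := by
  rw [e_eq]
  exact R.mul_mem (R.mul_mem cst_t0_mem g_mem) cst_s0_mem

lemma pull_mem (u : X → X) (hu : pull u g ∈ R) {f : A} (hf : f ∈ R) : pull u f ∈ R := by
  have h : R ≤ R.comap (pull u) := by
    unfold R
    rw [Subring.closure_le]
    intro y hy
    simp only [gens, Set.mem_insert_iff, Set.mem_singleton_iff] at hy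
    rcases hy with rfl | rfl | rfl | rfl | rfl
    · exact cst_s0_mem
    · exact cst_s1_mem
    · exact cst_t0_mem
    · exact cst_t1_mem
    · exact hu
  exact h hf

lemma shift_mem {f : A} (hf : f ∈ R) : pull shift f ∈ R := by
  apply pull_mem _ _ hf
  rw [g_shift]
  exact R.mul_mem (R.mul_mem cst_t1_mem g_mem) cst_s1_mem

lemma cons_false_mem {f : A} (hf : f ∈ R) : pull (cons false) f ∈ R := by
  apply pull_mem _ _ hf
  rw [g_cons_false]
  exact R.mul_mem (R.mul_mem cst_s1_mem g_mem) cst_t1_mem

lemma cons_true_mem {f : A} (hf : f ∈ R) : pull (cons true) f ∈ R := by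
  apply pull_mem _ _ hf
  rw [g_cons_true]
  exact R.add_mem (R.mul_mem cst_s0_mem cst_t0_mem)
    (R.mul_mem (R.mul_mem cst_s1_mem g_mem) cst_t1_mem)

def theEquiv : R ≃+* R × R where
  toFun f := (⟨pull (cons false) f.1, cons_false_mem f.2⟩, ⟨pull (cons true) f.1, cons_true_mem f.2⟩)
  invFun p := ⟨(1 - e) * pull shift p.1.1 + e * pull shift p.2.1,
    R.add_mem (R.mul_mem (R.sub_mem R.one_mem e_mem) (shift_mem p.1.2))
      (R.mul_mem e_mem (shift_mem p.2.2))⟩
  left_inv := by
    rintro ⟨f, hf⟩
    apply Subtype.ext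
    funext x
    change (1 - e x) * f (cons false (shift x)) + e x * f (cons true (shift x)) = f x
    have hx := cons_shift x
    by_cases h : x 0 = true
    · rw [h] at hx
      simp [e, h, hx]
    · have h' : x 0 = false := by simpa using h
      rw [h'] at hx
      simp [e, h', hx]
  right_inv := by
    rintro ⟨⟨f, hf⟩, ⟨f', hf'⟩⟩
    apply Prod.ext
    · apply Subtype.ext
      funext x
      change (1 - e (cons false x)) * f x + e (cons false x) * f' x = f x
      simp [e, cons]
    · apply Subtype.ext
      funext x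
      change (1 - e (cons true x)) * f x + e (cons true x) * f' x = f' x
      simp [e, cons]
  map_mul' _ _ := rfl
  map_add' _ _ := rfl

lemma fg : ∃ S : Finset R, Subring.closure (S : Set R) = ⊤ := by
  classical
  let S : Set R := {⟨cst s0, cst_s0_mem⟩, ⟨cst s1, cst_s1_mem⟩, ⟨cst t0, cst_t0_mem⟩,
    ⟨cst t1, cst_t1_mem⟩, ⟨g, g_mem⟩}
  have hfin : S.Finite := by
    simp only [S]
    exact Set.toFinite _
  refine ⟨hfin.toFinset, ?_⟩
  rw [Set.Finite.coe_toFinset]
  rw [eq_top_iff]
  have hmap : R ≤ (Subring.closure S).map R.subtype := by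
    rw [RingHom.map_closure]
    unfold R
    apply Subring.closure_mono
    intro y hy
    simp only [gens, Set.mem_insert_iff, Set.mem_singleton_iff] at hy
    rcases hy with rfl | rfl | rfl | rfl | rfl
    · exact ⟨⟨cst s0, cst_s0_mem⟩, Or.inl rfl, rfl⟩
    · exact ⟨⟨cst s1, cst_s1_mem⟩, Or.inr (Or.inl rfl), rfl⟩
    · exact ⟨⟨cst t0, cst_t0_mem⟩, Or.inr (Or.inr (Or.inl rfl)), rfl⟩
    · exact ⟨⟨cst t1, cst_t1_mem⟩, Or.inr (Or.inr (Or.inr (Or.inl rfl))), rfl⟩
    · exact ⟨⟨g, g_mem⟩, Or.inr (Or.inr (Or.inr (Or.inr rfl))), rfl⟩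
  intro z _
  obtain ⟨w, hw, hwz⟩ := hmap z.2
  have : w = z := Subtype.ext hwz
  rw [← this]
  exact hw

/-- There is a nonzero finitely generated associative unital ring isomorphic to its own square. -/
theorem result :
    ∃ (R : Type) (_ : Ring R), Nontrivial R ∧
      (∃ S : Finset R, Subring.closure (S : Set R) = ⊤) ∧ Nonempty (R ≃+* R × R) := by
  refine ⟨R, inferInstance, ?_, fg, ⟨theEquiv⟩⟩
  infer_instance

end Pool.Agent.Results.MP_1ea425_al.SelfSquare
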